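import Pool.Agent.Helper67.RG.EStmts

/-!
# E5: the pieces of degree `0, 1, 2`
-/

namespace Pool.Agent.Helper57.RG

open Pool.Agent.Helper67.RG Polynomial

theorem low_aeval (P : ℂ[X]) :
    algebraMap (RatFunc ℂ) Om (algebraMap ℂ[X] (RatFunc ℂ) P) = aeval tau P := by
  have h1 : aeval (RatFunc.X : RatFunc ℂ) P = algebraMap ℂ[X] (RatFunc ℂ) P := by
    rw [← RatFunc.algebraMap_X, aeval_algebraMap_apply, aeval_X_left_apply]
  rw [tau, aeval_algebraMap_apply, h1]

/-- elements of `K0 + K0 y` -/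
def LowK2 {ν : ℕ} {D : Pell ν} (T : Tower D) (z : Om) : Prop :=
  ∃ a b : RatFunc ℂ, z = algebraMap (RatFunc ℂ) Om a + algebraMap (RatFunc ℂ) Om b * T.y

theorem low_K2_mul {ν : ℕ} {D : Pell ν} (T : Tower D)
    (hy : ∃ c, T.y ^ 2 = algebraMap (RatFunc ℂ) Om c) {z z' : Om} (hz : LowK2 T z)
    (hz' : LowK2 T z') : LowK2 T (z * z') := by
  obtain ⟨a, b, rfl⟩ := hz
  obtain ⟨a', b', rfl⟩ := hz'
  obtain ⟨c, hc⟩ := hy
  refine ⟨a * a' + b * b' * c, a * b' + b * a', ?_⟩
  simp only [map_add, map_mul]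
  rw [← hc]
  ring

theorem low_K2_pow {ν : ℕ} {D : Pell ν} (T : Tower D)
    (hy : ∃ c, T.y ^ 2 = algebraMap (RatFunc ℂ) Om c) {z : Om} (hz : LowK2 T z) (k : ℕ) :
    LowK2 T (z ^ k) := by
  induction k with
  | zero => exact ⟨1, 0, by simp⟩
  | succ k ih => rw [pow_succ]; exact low_K2_mul T hy ih hz

theorem low_one_mem (hW : ST_W) : (1 : Om) ∈ W 0 := by
  have := hW.2.2.2.2.2.2 1 0 (by simp)
  simpa using this

theorem low_zero_mem (hW : ST_W) (n : ℕ) : (0 : Om) ∈ W n := by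
  have := hW.2.2.2.2.2.2 0 n (by simp)
  simpa using this

theorem low_pow_mem (hW : ST_W) {n : ℕ} {z : Om} (hz : z ∈ W n) (k : ℕ) : z ^ k ∈ W (n * k) := by
  induction k with
  | zero => simpa using low_one_mem hW
  | succ k ih =>
    rw [pow_succ, Nat.mul_succ]
    exact hW.2.1 _ _ _ _ ih hz

/-- `W n` as a complex subspace -/
def lowU (hW : ST_W) (n : ℕ) : Submodule ℂ Om where
  carrier := W n
  add_mem' := fun ha hb => hW.1 n _ _ ha hb
  zero_mem' := low_zero_mem hW n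
  smul_mem' := fun c x hx => hW.2.2.1 n c x hx

/-- the polynomial `∏ (X - lam i)` -/
noncomputable def lowS {ν : ℕ} (D : Pell ν) (s : Finset (Fin 12)) : ℂ[X] :=
  ∏ i ∈ s, (X - C (D.lam i))

theorem low_S_monic {ν : ℕ} (D : Pell ν) (s : Finset (Fin 12)) : (lowS D s).Monic :=
  monic_prod_of_monic _ _ fun _ _ => monic_X_sub_C _

theorem low_S_deg {ν : ℕ} (D : Pell ν) (s : Finset (Fin 12)) :
    (lowS D s).natDegree = s.card := by
  unfold lowS
  rw [natDegree_prod_of_monic _ _ fun _ _ => monic_X_sub_C _]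
  simp

theorem low_S_sqf {ν : ℕ} (D : Pell ν) (s : Finset (Fin 12)) : Squarefree (lowS D s) := by
  have h : (lowS D s).Separable := by
    unfold lowS
    rw [separable_prod_X_sub_C_iff']
    intro x _ y _ h
    exact D.inj h
  exact h.squarefree

theorem low_rr_sq {ν : ℕ} {D : Pell ν} (T : Tower D) (s : Finset (Fin 12)) :
    T.rr s ^ 2 = algebraMap (RatFunc ℂ) Om (algebraMap ℂ[X] (RatFunc ℂ) (lowS D s)) := by
  rw [low_aeval, Tower.rr, ← Finset.prod_pow, lowS, map_prod]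
  refine Finset.prod_congr rfl fun i _ => ?_
  rw [T.hr i, map_sub, aeval_X, aeval_C]

/-- rational functions whose square times a squarefree polynomial is a polynomial -/
theorem low_poly {ν : ℕ} (D : Pell ν) (s : Finset (Fin 12)) (c : RatFunc ℂ) (P : ℂ[X])
    (h : c ^ 2 * algebraMap ℂ[X] (RatFunc ℂ) (lowS D s) = algebraMap ℂ[X] (RatFunc ℂ) P) :
    ∃ Q : ℂ[X], c = algebraMap ℂ[X] (RatFunc ℂ) Q ∧ P = Q ^ 2 * lowS D s := by
  have hS0 : lowS D s ≠ 0 := (low_S_monic D s).ne_zero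
  have hinj : Function.Injective (algebraMap ℂ[X] (RatFunc ℂ)) :=
    IsFractionRing.injective ℂ[X] (RatFunc ℂ)
  have hS0' : algebraMap ℂ[X] (RatFunc ℂ) (lowS D s) ≠ 0 := by
    intro h0
    rw [← map_zero (algebraMap ℂ[X] (RatFunc ℂ))] at h0
    exact hS0 (hinj h0)
  have hint : IsIntegral ℂ[X] (c * algebraMap ℂ[X] (RatFunc ℂ) (lowS D s)) := by
    refine IsIntegral.of_pow (n := 2) (by norm_num) ?_
    have e : (c * algebraMap ℂ[X] (RatFunc ℂ) (lowS D s)) ^ 2
        = algebraMap ℂ[X] (RatFunc ℂ) (P * lowS D s) := by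
      rw [map_mul, ← h]
      ring
    rw [e]
    exact isIntegral_algebraMap
  obtain ⟨M, hM⟩ := IsIntegrallyClosed.isIntegral_iff.mp hint
  have hM2 : M ^ 2 = P * lowS D s := by
    apply hinj
    rw [map_pow, hM, map_mul, ← h]
    ring
  have hdvd : lowS D s ∣ M := (low_S_sqf D s).isRadical 2 M ⟨P, by rw [hM2]; ring⟩
  obtain ⟨Q, hQ⟩ := hdvd
  have hc : c = algebraMap ℂ[X] (RatFunc ℂ) Q := by
    rw [hQ, map_mul] at hM
    have : c * algebraMap ℂ[X] (RatFunc ℂ) (lowS D s)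
        = algebraMap ℂ[X] (RatFunc ℂ) Q * algebraMap ℂ[X] (RatFunc ℂ) (lowS D s) := by
      rw [← hM]; ring
    exact mul_right_cancel₀ hS0' this
  refine ⟨Q, hc, ?_⟩
  apply hinj
  rw [← h, hc, map_mul, map_pow]

theorem low_deg {ν : ℕ} (D : Pell ν) (s : Finset (Fin 12)) (P Q : ℂ[X]) (hQ : Q ≠ 0)
    (h : P = Q ^ 2 * lowS D s) : P.natDegree = 2 * Q.natDegree + s.card := by
  rw [h, natDegree_mul (pow_ne_zero _ hQ) (low_S_monic D s).ne_zero, natDegree_pow, low_S_deg]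

/-- coordinates in `E n` -/
theorem low_coord {ν : ℕ} {D : Pell ν} (T : Tower D) (n : ℕ) (z : Om) (hz : z ∈ T.E n) :
    ∃ c : Finset (Fin 12) → Fin ν → RatFunc ℂ,
      (∀ s i, s.card % 2 ≠ n % 2 → c s i = 0) ∧
      z = ∑ s, ∑ i, c s i • (T.rr s * T.w ^ (i : ℕ)) := by
  classical
  unfold Tower.E at hz
  induction hz using Submodule.span_induction with
  | mem z hz =>
    obtain ⟨s, i, hi, hs, rfl⟩ := hz
    refine ⟨fun s' i' => if s' = s ∧ (i' : ℕ) = i then 1 else 0, ?_, ?_⟩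
    · intro s' i' hs'
      exact if_neg fun h => hs' (by rw [h.1]; exact hs)
    · rw [Finset.sum_eq_single s, Finset.sum_eq_single (⟨i, hi⟩ : Fin ν)]
      · simp
      · intro b _ hb
        have h0 : (fun (s' : Finset (Fin 12)) (i' : Fin ν) =>
            if s' = s ∧ (i' : ℕ) = i then (1 : RatFunc ℂ) else 0) s b = 0 :=
          if_neg fun h => hb (Fin.ext h.2)
        rw [h0, zero_smul]
      · intro h; exact absurd (Finset.mem_univ _) h
      · intro b _ hb
        refine Finset.sum_eq_zero fun j _ => ?_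
        have h0 : (fun (s' : Finset (Fin 12)) (i' : Fin ν) =>
            if s' = s ∧ (i' : ℕ) = i then (1 : RatFunc ℂ) else 0) b j = 0 :=
          if_neg fun h => hb h.1
        rw [h0, zero_smul]
      · intro h; exact absurd (Finset.mem_univ _) h
  | zero =>
    refine ⟨fun _ _ => 0, fun _ _ _ => rfl, ?_⟩
    simp
  | add x y _ _ hx hy =>
    obtain ⟨c, hc, hc'⟩ := hx
    obtain ⟨d, hd, hd'⟩ := hy
    refine ⟨fun s i => c s i + d s i, fun s i h => ?_, ?_⟩
    · show c s i + d s i = 0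
      rw [hc s i h, hd s i h, add_zero]
    rw [hc', hd', ← Finset.sum_add_distrib]
    refine Finset.sum_congr rfl fun s _ => ?_
    rw [← Finset.sum_add_distrib]
    exact Finset.sum_congr rfl fun i _ => by rw [add_smul]
  | smul k x _ hx =>
    obtain ⟨c, hc, hc'⟩ := hx
    refine ⟨fun s i => k * c s i, fun s i h => ?_, ?_⟩
    · show k * c s i = 0
      rw [hc s i h, mul_zero]
    rw [hc', Finset.smul_sum]
    refine Finset.sum_congr rfl fun s _ => ?_
    rw [Finset.smul_sum]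
    exact Finset.sum_congr rfl fun i _ => by rw [mul_smul]

theorem low_compl {ν : ℕ} {D : Pell ν} (T : Tower D) (s : Finset (Fin 12)) :
    T.rr s * T.rr sᶜ = T.y := by
  unfold Tower.rr Tower.y Tower.rr
  exact Finset.prod_mul_prod_compl s _

/-- the components with `i ≥ 1` vanish -/
theorem low_vanish (hEX : ST_EX) (hBAS : ST_BAS) (hW : ST_W) (hWH : ST_WH) {ν : ℕ} {D : Pell ν}
    (T : Tower D) (n : ℕ) (hn : n ≤ 2) (s : Finset (Fin 12)) (i : ℕ) (hi0 : 0 < i) (hi : i < ν)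
    (c c' : RatFunc ℂ)
    (hmem : (c • T.rr s + c' • T.rr sᶜ) * T.w ^ i ∈ W n) :
    c • T.rr s + c' • T.rr sᶜ = 0 := by
  obtain ⟨-, hy2, hG2, -⟩ := hBAS ν D T
  have hy : ∃ c, T.y ^ 2 = algebraMap (RatFunc ℂ) Om c := by
    refine ⟨algebraMap ℂ[X] (RatFunc ℂ) ((D.f1 * D.f2).comp (X ^ 3)), ?_⟩
    rw [hy2, low_aeval]
  -- F
  set F : Om := (c • T.rr s + c' • T.rr sᶜ) ^ 2 with hF
  have hF2 : LowK2 T F := by
    refine ⟨c ^ 2 * algebraMap ℂ[X] (RatFunc ℂ) (lowS D s)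
      + c' ^ 2 * algebraMap ℂ[X] (RatFunc ℂ) (lowS D sᶜ), 2 * c * c', ?_⟩
    simp only [map_add, map_mul, map_pow, map_ofNat]
    rw [← low_rr_sq, ← low_rr_sq, ← low_compl T s, hF, Algebra.smul_def, Algebra.smul_def]
    ring
  have hG : LowK2 T (T.G ^ 2) := by
    obtain ⟨a, ha⟩ := Tower.aeval_tau_mem (D.f2 * D.p ^ 2 + D.f1 * D.q ^ 2)
    obtain ⟨b, hb⟩ := Tower.aeval_tau_mem (2 * D.p * D.q)
    exact ⟨a, b, by rw [hG2, ha, hb]⟩
  have hprod : LowK2 T (F ^ ν * T.G ^ (2 * i)) := by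
    rw [pow_mul]
    exact low_K2_mul T hy (low_K2_pow T hy hF2 ν) (low_K2_pow T hy hG i)
  have heq : ((c • T.rr s + c' • T.rr sᶜ) * T.w ^ i) ^ (2 * ν) = F ^ ν * T.G ^ (2 * i) := by
    rw [mul_pow, ← pow_mul, hF, ← pow_mul, ← Tower.hw', ← pow_mul]
    congr 2
    ring
  have hmemW : F ^ ν * T.G ^ (2 * i) ∈ W (2 * (ν * n)) := by
    have h1 := low_pow_mem hW hmem (2 * ν)
    rw [heq] at h1
    have e : n * (2 * ν) = 2 * (ν * n) := by ring
    rwa [e] at h1
  obtain ⟨a, b, hab⟩ := hprod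
  rw [hab] at hmemW
  obtain ⟨P, Q, hP, hQ, hdP, hdQ⟩ := hWH ν D T (ν * n) a b hmemW
  have hle : ν * n ≤ 2 * ν := by
    calc ν * n ≤ ν * 2 := Nat.mul_le_mul_left _ hn
      _ = 2 * ν := by ring
  obtain ⟨A, B, hAB⟩ := hF2
  have hfin := hEX ν D T A B P Q i hi0 hi (by
    rw [← hAB, hab, hP, hQ, low_aeval, low_aeval]) (hdP.trans hle) (by
    rcases hdQ with h | h
    · exact Or.inl h
    · exact Or.inr (h.trans hle))
  have hF0 : F = 0 := by
    rw [hAB, hfin.1, hfin.2]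
    simp
  exact pow_eq_zero_iff (two_ne_zero) |>.mp hF0

/-- Galois characters of the `r_s` are distinct -/
theorem low_distinct (hBAS : ST_BAS) {ν : ℕ} {D : Pell ν} (T : Tower D)
    (s t : Finset (Fin 12)) (hst : s ≠ t) :
    ∃ σ : Om ≃ₐ[RatFunc ℂ] Om, ¬ (σ (T.rr s) = T.rr s ↔ σ (T.rr t) = T.rr t) := by
  obtain ⟨-, -, -, hind⟩ := hBAS ν D T
  have hsgn : ∀ (σ : Om ≃ₐ[RatFunc ℂ] Om) (u : Finset (Fin 12)),
      σ (T.rr u) = T.rr u ∨ σ (T.rr u) = -T.rr u := by
    intro σ u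
    have h : (σ (T.rr u)) ^ 2 = (T.rr u) ^ 2 := by
      rw [← map_pow, low_rr_sq]
      exact σ.commutes _
    exact sq_eq_sq_iff_eq_or_eq_neg.mp h
  by_contra hcon
  push Not at hcon
  have hfix : ∀ σ : Om ≃ₐ[RatFunc ℂ] Om, σ (T.rr s * T.rr t) = T.rr s * T.rr t := by
    intro σ
    rw [map_mul]
    by_cases h : σ (T.rr s) = T.rr s
    · rw [h, (hcon σ).mp h]
    · have h' : ¬ σ (T.rr t) = T.rr t := fun h1 => h ((hcon σ).mpr h1)
      rw [(hsgn σ s).resolve_left h, (hsgn σ t).resolve_left h']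
      ring
  have hbot : T.rr s * T.rr t ∈ (⊥ : IntermediateField (RatFunc ℂ) Om) :=
    (InfiniteGalois.mem_bot_iff_fixed (T.rr s * T.rr t)).mpr hfix
  obtain ⟨k, hk⟩ := IntermediateField.mem_bot.mp hbot
  have h1 : algebraMap ℂ[X] (RatFunc ℂ) (lowS D t) • T.rr s - k • T.rr t = 0 := by
    rw [Algebra.smul_def, Algebra.smul_def, ← low_rr_sq, hk]
    ring
  have h2 := linearIndependent_iff'.mp hind {s, t}
    (fun u => if u = s then algebraMap ℂ[X] (RatFunc ℂ) (lowS D t) else -k) (by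
      rw [Finset.sum_pair hst, if_pos rfl, if_neg (Ne.symm hst), neg_smul, ← sub_eq_add_neg]
      exact h1) s (by simp)
  rw [if_pos rfl, ← map_zero (algebraMap ℂ[X] (RatFunc ℂ))] at h2
  exact (low_S_monic D t).ne_zero (IsFractionRing.injective ℂ[X] (RatFunc ℂ) h2)

/-- the Galois automorphisms as complex linear maps -/
noncomputable def lowL (σ : Om ≃ₐ[RatFunc ℂ] Om) : Om →ₗ[ℂ] Om :=
  (σ.toLinearMap).restrictScalars ℂ

theorem low_L_apply (σ : Om ≃ₐ[RatFunc ℂ] Om) (z : Om) : lowL σ z = σ z := rfl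

/-- the components `c_s r_s` are in `W n` -/
theorem low_comp_mem (hBAS : ST_BAS) (hKILL : ST_KILL) (hW : ST_W) {ν : ℕ} {D : Pell ν}
    (T : Tower D) (n : ℕ) (c : Finset (Fin 12) → RatFunc ℂ)
    (h : ∑ s, c s • T.rr s ∈ W n) (s : Finset (Fin 12)) : c s • T.rr s ∈ W n := by
  classical
  have h1 := hKILL Om (lowU hW n) (Set.range lowL) (by
      rintro _ ⟨σ, rfl⟩ v hv
      exact hW.2.2.2.2.1 σ n v hv)
    (Finset (Fin 12)) Finset.univ (fun s => c s • T.rr s)
    (fun s φ => if φ (T.rr s) = T.rr s then 1 else -1) (by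
      rintro u - _ ⟨σ, rfl⟩
      have hu : σ (T.rr u) = T.rr u ∨ σ (T.rr u) = -T.rr u := by
        have h : (σ (T.rr u)) ^ 2 = (T.rr u) ^ 2 := by
          rw [← map_pow, low_rr_sq]
          exact σ.commutes _
        exact sq_eq_sq_iff_eq_or_eq_neg.mp h
      show σ (c u • T.rr u) = (if σ (T.rr u) = T.rr u then (1 : ℂ) else -1) • (c u • T.rr u)
      have hsm : σ (c u • T.rr u) = c u • σ (T.rr u) := by
        rw [Algebra.smul_def, map_mul, σ.commutes, ← Algebra.smul_def]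
      rw [hsm]
      by_cases hh : σ (T.rr u) = T.rr u
      · rw [if_pos hh, hh, one_smul]
      · rw [if_neg hh, hu.resolve_left hh, neg_smul, one_smul, smul_neg]) (by
      intro u _ v _ huv
      obtain ⟨σ, hσ⟩ := low_distinct hBAS T u v huv
      refine ⟨lowL σ, ⟨σ, rfl⟩, ?_⟩
      show (if σ (T.rr u) = T.rr u then (1 : ℂ) else -1)
        ≠ (if σ (T.rr v) = T.rr v then (1 : ℂ) else -1)
      by_cases h1 : σ (T.rr u) = T.rr u
      · by_cases h2 : σ (T.rr v) = T.rr v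
        · exact absurd (iff_of_true h1 h2) hσ
        · rw [if_pos h1, if_neg h2]
          norm_num
      · by_cases h2 : σ (T.rr v) = T.rr v
        · rw [if_neg h1, if_pos h2]
          norm_num
        · exact absurd (iff_of_false h1 h2) hσ) h
  exact h1 s (Finset.mem_univ s)

/-- the general form -/
theorem low_form (hEX : ST_EX) (hBAS : ST_BAS) (hKILL : ST_KILL) (hW : ST_W) (hWH : ST_WH)
    (hCOMP : ST_COMP) {ν : ℕ} {D : Pell ν} (T : Tower D) (n : ℕ) (hn : n ≤ 2) (z : Om)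
    (hz : z ∈ W n) (hzE : z ∈ T.E n) :
    ∃ Q : Finset (Fin 12) → ℂ[X], z = ∑ s, aeval tau (Q s) * T.rr s ∧
      ∀ s, Q s ≠ 0 → 2 * (Q s).natDegree + s.card ≤ n ∧ s.card % 2 = n % 2 := by
  classical
  obtain ⟨c, hc, hzc⟩ := low_coord T n z hzE
  have hν := D.hν
  have hcomp := hCOMP ν D T n c (hzc ▸ hz)
  have hvan : ∀ i : Fin ν, 0 < (i : ℕ) → ∑ s, c s i • T.rr s = 0 := by
    intro i hi
    have h1 : ∀ s, c s i • T.rr s + c sᶜ i • T.rr sᶜ = 0 := fun s =>
      low_vanish hEX hBAS hW hWH T n hn s i hi i.2 _ _ (hcomp s i)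
    have h2 : ∑ s, c sᶜ i • T.rr sᶜ = ∑ s, c s i • T.rr s :=
      Function.Bijective.sum_comp compl_bijective fun s => c s i • T.rr s
    have h3 : ∑ s, c s i • T.rr s + ∑ s, c sᶜ i • T.rr sᶜ = 0 := by
      rw [← Finset.sum_add_distrib]
      exact Finset.sum_eq_zero fun s _ => h1 s
    rw [h2, ← two_mul] at h3
    exact (mul_eq_zero.mp h3).resolve_left two_ne_zero
  set i0 : Fin ν := ⟨0, by omega⟩ with hi0
  have hz0 : z = ∑ s, c s i0 • T.rr s := by
    rw [hzc, Finset.sum_comm, Finset.sum_eq_single i0]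
    · refine Finset.sum_congr rfl fun s _ => ?_
      rw [hi0]
      simp
    · intro i _ hi
      have hpos : 0 < (i : ℕ) := by
        rcases Nat.eq_zero_or_pos (i : ℕ) with h | h
        · exact absurd (Fin.ext h) hi
        · exact h
      have : ∑ s, c s i • (T.rr s * T.w ^ (i : ℕ)) = (∑ s, c s i • T.rr s) * T.w ^ (i : ℕ) := by
        rw [Finset.sum_mul]
        exact Finset.sum_congr rfl fun s _ => (smul_mul_assoc _ _ _).symm
      rw [this, hvan i hpos, zero_mul]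
    · intro h; exact absurd (Finset.mem_univ _) h
  have hmem : ∀ s, c s i0 • T.rr s ∈ W n := by
    rw [hz0] at hz
    exact low_comp_mem hBAS hKILL hW T n (fun s => c s i0) hz
  have hpoly : ∀ s, ∃ Q : ℂ[X], c s i0 = algebraMap ℂ[X] (RatFunc ℂ) Q ∧
      (Q ≠ 0 → 2 * Q.natDegree + s.card ≤ n) := by
    intro s
    have h1 := hW.2.1 n n _ _ (hmem s) (hmem s)
    have h2 : c s i0 • T.rr s * c s i0 • T.rr s = algebraMap (RatFunc ℂ) Om
        (c s i0 ^ 2 * algebraMap ℂ[X] (RatFunc ℂ) (lowS D s)) := by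
      rw [map_mul, map_pow, ← low_rr_sq, Algebra.smul_def]
      ring
    rw [h2] at h1
    obtain ⟨P, hP, hdP⟩ := hW.2.2.2.2.2.1 _ _ h1
    obtain ⟨Q, hQ, hPQ⟩ := low_poly D s _ P hP
    refine ⟨Q, hQ, fun hQ0 => ?_⟩
    have := low_deg D s P Q hQ0 hPQ
    omega
  choose Q hQ hQd using hpoly
  refine ⟨Q, ?_, fun s hs => ⟨hQd s hs, ?_⟩⟩
  · rw [hz0]
    refine Finset.sum_congr rfl fun s _ => ?_
    rw [Algebra.smul_def, hQ s, low_aeval]
  · by_contra hpar
    have h0 := hc s i0 hpar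
    rw [hQ s, ← map_zero (algebraMap ℂ[X] (RatFunc ℂ))] at h0
    exact hs (IsFractionRing.injective ℂ[X] (RatFunc ℂ) h0)

theorem st_LOW (hEX : ST_EX) (hBAS : ST_BAS) (hKILL : ST_KILL) (hW : ST_W) (hWH : ST_WH)
    (hCOMP : ST_COMP) : ST_LOW := by
  intro ν D T
  refine ⟨?_, ?_, ?_⟩
  · intro z hz hzE
    obtain ⟨Q, hzQ, hQ⟩ := low_form hEX hBAS hKILL hW hWH hCOMP T 0 (by norm_num) z hz hzE
    have hterm : ∀ s, aeval tau (Q s) * T.rr s ∈ LinearMap.range (Algebra.linearMap ℂ Om) := by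
      intro s
      by_cases h0 : Q s = 0
      · rw [h0, map_zero, zero_mul]
        exact Submodule.zero_mem _
      · obtain ⟨h1, h2⟩ := hQ s h0
        have hs : s = ∅ := Finset.card_eq_zero.mp (by omega)
        have hdeg : (Q s).natDegree = 0 := by omega
        obtain ⟨k, hk⟩ := natDegree_eq_zero.mp hdeg
        refine ⟨k, ?_⟩
        rw [← hk, aeval_C, hs, Tower.rr, Finset.prod_empty, mul_one]
        rfl
    have := Submodule.sum_mem _ fun s (_ : s ∈ Finset.univ) => hterm s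
    rw [← hzQ] at this
    obtain ⟨k, hk⟩ := this
    exact ⟨k, hk.symm⟩
  · intro z hz hzE
    obtain ⟨Q, hzQ, hQ⟩ := low_form hEX hBAS hKILL hW hWH hCOMP T 1 (by norm_num) z hz hzE
    rw [hzQ]
    refine Submodule.sum_mem _ fun s _ => ?_
    by_cases h0 : Q s = 0
    · rw [h0, map_zero, zero_mul]
      exact Submodule.zero_mem _
    · obtain ⟨h1, h2⟩ := hQ s h0
      have hs : s.card = 1 := by omega
      obtain ⟨i, hi⟩ := Finset.card_eq_one.mp hs
      have hdeg : (Q s).natDegree = 0 := by omega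
      obtain ⟨k, hk⟩ := natDegree_eq_zero.mp hdeg
      rw [← hk, aeval_C, hi, Tower.rr, Finset.prod_singleton, ← Algebra.smul_def]
      exact Submodule.smul_mem _ _ (Submodule.subset_span ⟨i, rfl⟩)
  · intro z hz hzE
    obtain ⟨Q, hzQ, hQ⟩ := low_form hEX hBAS hKILL hW hWH hCOMP T 2 le_rfl z hz hzE
    set M := Submodule.span ℂ (Set.range fun p : J => T.r p.1.1 * T.r p.1.2) with hM
    have hprod : ∀ i j, T.r i * T.r j ∈ M := by
      intro i j
      rcases le_total i j with h | h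
      · exact Submodule.subset_span ⟨⟨(i, j), h⟩, rfl⟩
      · rw [mul_comm]
        exact Submodule.subset_span ⟨⟨(j, i), h⟩, rfl⟩
    have hlam : D.lam 1 - D.lam 0 ≠ 0 := by
      rw [sub_ne_zero]
      intro h
      exact absurd (D.inj h) (by decide)
    have hone : (1 : Om) ∈ M := by
      have h1 : (1 : Om) = (D.lam 1 - D.lam 0)⁻¹ • (T.r 0 * T.r 0 - T.r 1 * T.r 1) := by
        rw [← pow_two, ← pow_two, T.hr, T.hr]
        have e : tau - algebraMap ℂ Om (D.lam 0) - (tau - algebraMap ℂ Om (D.lam 1))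
            = algebraMap ℂ Om (D.lam 1 - D.lam 0) := by
          rw [map_sub]; ring
        rw [e, Algebra.smul_def, ← map_mul, inv_mul_cancel₀ hlam, map_one]
      rw [h1]
      exact Submodule.smul_mem _ _ (Submodule.sub_mem _ (hprod 0 0) (hprod 1 1))
    have htau : tau ∈ M := by
      have h1 : tau = T.r 0 * T.r 0 + (D.lam 0) • (1 : Om) := by
        rw [← pow_two, T.hr, Algebra.smul_def, mul_one]
        ring
      rw [h1]
      exact Submodule.add_mem _ (hprod 0 0) (Submodule.smul_mem _ _ hone)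
    rw [hzQ]
    refine Submodule.sum_mem _ fun s _ => ?_
    by_cases h0 : Q s = 0
    · rw [h0, map_zero, zero_mul]
      exact Submodule.zero_mem _
    · obtain ⟨h1, h2⟩ := hQ s h0
      have hs : s.card = 0 ∨ s.card = 2 := by omega
      rcases hs with hs | hs
      · have hse : s = ∅ := Finset.card_eq_zero.mp hs
        have hdeg : (Q s).natDegree ≤ 1 := by omega
        obtain ⟨a, b, hab⟩ := exists_eq_X_add_C_of_natDegree_le_one hdeg
        rw [hab, hse, Tower.rr, Finset.prod_empty, mul_one, map_add, map_mul, aeval_C, aeval_X,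
          aeval_C, ← Algebra.smul_def, Algebra.algebraMap_eq_smul_one]
        exact Submodule.add_mem _ (Submodule.smul_mem _ _ htau) (Submodule.smul_mem _ _ hone)
      · obtain ⟨i, j, hij, hse⟩ := Finset.card_eq_two.mp hs
        have hdeg : (Q s).natDegree = 0 := by omega
        obtain ⟨k, hk⟩ := natDegree_eq_zero.mp hdeg
        rw [← hk, aeval_C, hse, Tower.rr, Finset.prod_pair hij, ← Algebra.smul_def]
        exact Submodule.smul_mem _ _ (hprod i j)

end Pool.Agent.Helper57.RG
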